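import Pool.Agent.Helper37.SN.Stmts

set_option autoImplicit false

namespace Pool.Agent.Helper37.SN

open MeasureTheory Finset
open scoped ENNReal Classical

theorem ANA_spk (hAVG : ST_AVG) (hGG : ST_GG) (r p q : ℝ) (hp1 : 1 < p) (hp2 : p < 2)
    (hq : 2 < q) (hr : 1 / p < r) (e : ℕ) :
    ∃ C1 : ℝ, 0 < C1 ∧ ∀ (n s₀ : ℕ) (y : P2), 3 ≤ s₀ → s₀ + 3 ≤ n →
      Cost r p q (fun x : TT (e + 2) => spk n s₀ y (pr x))
        (C1 * (2 : ℝ) ^ ((r - 1 / p) * (n : ℝ))) (C1 * (2 : ℝ) ^ (-((n : ℝ) / q))) := by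
  obtain ⟨CA, hCA, hA⟩ := hAVG r p q hp1 hp2 hq hr
  obtain ⟨_, _, _, _, hadm⟩ := hGG
  obtain ⟨Cg, hCg, hAdm⟩ := hadm (kk r)
  refine ⟨CA * Cg * Cg, by positivity, fun n s₀ y h3 hn => ?_⟩
  have h := hA e n 0 Cg Cg gg gg {s₀} y.1 y.2 hAdm hAdm (Finset.singleton_nonempty s₀) (by
    intro s hs
    rw [Finset.mem_singleton] at hs
    subst hs
    omega)
  have h1 : (fun x : TT (e + 2) => spk n s₀ y (pr x)) =
      fun x : TT (e + 2) => ((({s₀} : Finset ℕ).card : ℝ)⁻¹ *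
        ∑ s ∈ ({s₀} : Finset ℕ), bmp gg (s + 0) y.1 (x 0) * bmp gg (n - s + 0) y.2 (x 1)) := by
    funext x
    simp [spk, pr]
  rw [h1]
  convert h using 1 <;> simp

theorem ANA_small (a : ℝ) (ha : 0 < a) (K δ : ℝ) (hδ : 0 < δ) :
    ∃ N : ℕ, ∀ ρ : ℕ, N ≤ ρ → K * (2 : ℝ) ^ (-(a * (ρ : ℝ))) ≤ δ := by
  have h1 : (2 : ℝ) ^ (-a) < 1 := Real.rpow_lt_one_of_one_lt_of_neg (by norm_num) (by linarith)
  have h0 : 0 ≤ (2 : ℝ) ^ (-a) := by positivity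
  have ht := (tendsto_pow_atTop_nhds_zero_of_lt_one h0 h1).const_mul K
  rw [mul_zero] at ht
  obtain ⟨N, hN⟩ := Filter.eventually_atTop.mp (ht.eventually (gt_mem_nhds hδ))
  refine ⟨N, fun ρ hρ => ?_⟩
  have := hN ρ hρ
  have h2 : (2 : ℝ) ^ (-(a * (ρ : ℝ))) = ((2 : ℝ) ^ (-a)) ^ ρ := by
    rw [← Real.rpow_natCast, ← Real.rpow_mul (by norm_num)]
    ring_nf
  rw [h2]
  exact this.le

theorem ANA_w (a : ℝ) (ha : 0 < a) (δ : ℝ) (hδ : 0 < δ) :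
    ∃ w : ℕ, 1 ≤ w ∧ ∀ w' : ℕ, w ≤ w' → (w' : ℝ) ^ (-a) ≤ δ := by
  have ht : Filter.Tendsto (fun n : ℕ => (n : ℝ) ^ (-a)) Filter.atTop (nhds 0) :=
    (tendsto_rpow_neg_atTop ha).comp tendsto_natCast_atTop_atTop
  obtain ⟨N, hN⟩ := Filter.eventually_atTop.mp (ht.eventually (gt_mem_nhds hδ))
  exact ⟨max N 1, le_max_right _ _, fun w' hw' => (hN w' (le_trans (le_max_left _ _) hw')).le⟩

theorem ANA_van (hBMP : ST_BMP) (hGG : ST_GG) (n s₀ : ℕ) (y z : P2) (h3 : 3 ≤ s₀)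
    (hn : s₀ + 3 ≤ n) (h : ¬ Bx n (-1) s₀ y z) : spk n s₀ y z = 0 := by
  obtain ⟨hc, _, hz, _, _⟩ := hGG
  have hcont : Continuous gg := hc.continuous
  unfold Bx at h
  rw [not_and_or, not_le, not_le] at h
  unfold spk
  rcases h with h | h
  · rw [(hBMP gg s₀ y.1 h3 hcont hz).2 z.1, zero_mul]
    refine le_trans (le_of_eq ?_) h.le
    rw [show (-((s₀ : ℤ) + -1)) = 1 - (s₀ : ℤ) by ring, zpow_sub₀ two_ne_zero, zpow_one,
      zpow_natCast]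
  · rw [(hBMP gg (n - s₀) y.2 (by omega) hcont hz).2 z.2, mul_zero]
    refine le_trans (le_of_eq ?_) h.le
    rw [show (-((n : ℤ) - (s₀ : ℤ) + -1)) = 1 - ((n - s₀ : ℕ) : ℤ) by omega,
      zpow_sub₀ two_ne_zero, zpow_one, zpow_natCast]

theorem st_ANA (hAVG : ST_AVG) (hCOR : ST_COR) (hCST : ST_CST) (hSPK : ST_SPK) (hCLU : ST_CLU)
    (hGG : ST_GG) (hBMP : ST_BMP) (_ : ST_REP) : ST_ANA := by
  intro r p q hp1 hp2 hq hr e
  obtain ⟨C1, hC1, hspk⟩ := ANA_spk hAVG hGG r p q hp1 hp2 hq hr e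
  obtain ⟨C2, hC2, hcor⟩ := hCOR r p q hp1 hp2 hq hr
  refine ⟨1 / (2 * (C1 + 1)), by positivity, fun B => ?_⟩
  have hp0 : 0 < 1 - 1 / p := by
    have : 1 / p < 1 := by
      rw [div_lt_one (by linarith)]
      exact hp1
    linarith
  have hw : ∀ ρ : ℕ, ∃ w : ℕ, 1 ≤ w ∧ ∀ w' : ℕ, w ≤ w' →
      (w' : ℝ) ^ (-(1 - 1 / p)) ≤
        (2 : ℝ) ^ (-(ρ : ℝ)) / (2 : ℝ) ^ ((r - 1 / p) * (2 * (ρ : ℝ))) :=
    fun ρ => ANA_w _ hp0 _ (by positivity)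
  choose w hw1 hw2 using hw
  obtain ⟨N1, hN1⟩ := ANA_small 1 one_pos (3 * B * C2) 1 one_pos
  obtain ⟨N2, hN2⟩ := ANA_small (2 / q) (by positivity) (B * C2) (1 / 2) (by norm_num)
  refine ⟨max 3 (max N1 N2), fun ρ => ⌈(r - 1 / p) * (2 * (ρ : ℝ)) + ρ⌉₊, w, ?_⟩
  intro n ρ m X y s₀ hρ hDat
  obtain ⟨h3, hn, hcard, hdat⟩ := hDat
  have hρ3 : 3 ≤ ρ := le_trans (le_max_left _ _) hρ
  have hρ1 : N1 ≤ ρ := le_trans (le_trans (le_max_left _ _) (le_max_right _ _)) hρ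
  have hρ2 : N2 ≤ ρ := le_trans (le_trans (le_max_right _ _) (le_max_right _ _)) hρ
  have hb1 := hN1 ρ hρ1
  have hb2 := hN2 ρ hρ2
  rw [one_mul] at hb1
  set P : ℝ := (2 : ℝ) ^ ((r - 1 / p) * (n : ℝ)) with hP
  have hP0 : 0 < P := by positivity
  set Y : Fin m → P2 := fun i => pr (X i) with hY
  choose! G sp sm hG using hdat
  obtain ⟨R, hRN, hRd, hRc⟩ := hCLU m n ρ s₀ Y y (fun i hi =>
    ((hG i hi).2.2.2.2.2 s₀ (Finset.mem_insert_self _ _)).1)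
  -- the corrections
  have hh : ∀ i ∈ near Y n (-1) y s₀, ∃ h : TT (e + 2) → ℝ,
      Cost r p q h (3 * C2 * (2 : ℝ) ^ (-(ρ : ℝ)) * P)
        (C2 * (2 : ℝ) ^ (-(((n : ℝ) + 2 * ρ) / q))) ∧
      ∀ z : TT (e + 2),
      ((∀ s ∈ insert s₀ (insert (sp i) (insert (sm i) (G i))), Bx n ρ s (Y i) (pr z)) →
        h z = spk n s₀ y (pr z)) ∧
      ((∀ s ∈ insert s₀ (insert (sp i) (insert (sm i) (G i))), ¬ Bx n ((ρ : ℤ) - 1) s (Y i) (pr z)) →
        h z = 0) := by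
    intro i hi
    obtain ⟨hi1, hi2, hi3, hi4, hi5, hi6⟩ := hG i hi
    have hne : (G i).Nonempty := by
      rw [← Finset.card_pos]
      exact lt_of_lt_of_le (lt_of_lt_of_le one_pos (hw1 ρ)) hi1
    have hBx : Bx n (-1) s₀ y (Y i) := (Finset.mem_filter.mp hi).2
    obtain ⟨h, hcost, hpt⟩ := hcor e n ρ s₀ _ (sp i) (sm i) (G i) y (Y i) hρ3 h3 hn hne hi2 hi3 hi4
      hi5 hBx
    refine ⟨h, ?_, hpt⟩
    refine (hCST r p q (e + 2) hp1.le (by linarith)).2.2.2 _ _ _ _ _ ?_ le_rfl hcost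
    have e1 : ((G i).card : ℝ) ^ (-(1 - 1 / p)) * (2 : ℝ) ^ ((r - 1 / p) * (2 * (ρ : ℝ))) ≤
        (2 : ℝ) ^ (-(ρ : ℝ)) := by
      have := hw2 ρ _ hi1
      rw [le_div_iff₀ (by positivity)] at this
      exact this
    have e2 : (2 : ℝ) ^ ((r - 1 / p) * (2 * (ρ : ℝ)) -
        (⌈(r - 1 / p) * (2 * (ρ : ℝ)) + ρ⌉₊ : ℕ)) ≤ (2 : ℝ) ^ (-(ρ : ℝ)) := by
      refine Real.rpow_le_rpow_of_exponent_le (by norm_num) ?_
      have := Nat.le_ceil ((r - 1 / p) * (2 * (ρ : ℝ)) + ρ)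
      linarith
    have e3 : C2 * P * (((G i).card : ℝ) ^ (-(1 - 1 / p)) *
        (2 : ℝ) ^ ((r - 1 / p) * (2 * (ρ : ℝ))) + (2 : ℝ) ^ ((r - 1 / p) * (2 * (ρ : ℝ)) -
        (⌈(r - 1 / p) * (2 * (ρ : ℝ)) + ρ⌉₊ : ℕ)) + (2 : ℝ) ^ (-(ρ : ℝ))) ≤
        C2 * P * ((2 : ℝ) ^ (-(ρ : ℝ)) + (2 : ℝ) ^ (-(ρ : ℝ)) + (2 : ℝ) ^ (-(ρ : ℝ))) := by
      refine mul_le_mul_of_nonneg_left ?_ (by positivity)
      linarith
    refine le_trans e3 (le_of_eq ?_)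
    ring
  choose! h hcost hpt using hh
  have hqq : 1 ≤ q := by linarith
  obtain ⟨cs1, cs2, cs3, cs4⟩ := hCST r p q (e + 2) hp1.le hqq
  -- the sum of the corrections
  have hS : Cost r p q (fun x : TT (e + 2) => ∑ i ∈ R, h i x) P
      ((1 / 2) * (2 : ℝ) ^ (-((n : ℝ) / q))) := by
    have h1 := cs3 (Fin m) R h (fun _ => 3 * C2 * (2 : ℝ) ^ (-(ρ : ℝ)) * P)
      (fun _ => C2 * (2 : ℝ) ^ (-(((n : ℝ) + 2 * ρ) / q))) (fun _ _ => by positivity)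
      (fun _ _ => by positivity) (fun i hi => hcost i (hRN hi))
    have hRB : (R.card : ℝ) ≤ B := by
      exact_mod_cast le_trans (Finset.card_le_card hRN) hcard
    refine cs4 _ _ _ _ _ ?_ ?_ h1
    · rw [Finset.sum_const, nsmul_eq_mul]
      calc (R.card : ℝ) * (3 * C2 * (2 : ℝ) ^ (-(ρ : ℝ)) * P)
          ≤ (B : ℝ) * (3 * C2 * (2 : ℝ) ^ (-(ρ : ℝ)) * P) :=
            mul_le_mul_of_nonneg_right hRB (by positivity)
        _ = (3 * B * C2 * (2 : ℝ) ^ (-(ρ : ℝ))) * P := by ring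
        _ ≤ 1 * P := mul_le_mul_of_nonneg_right hb1 hP0.le
        _ = P := one_mul P
    · rw [Finset.sum_const, nsmul_eq_mul]
      have hsplit : (2 : ℝ) ^ (-(((n : ℝ) + 2 * ρ) / q)) =
          (2 : ℝ) ^ (-(2 / q * (ρ : ℝ))) * (2 : ℝ) ^ (-((n : ℝ) / q)) := by
        rw [← Real.rpow_add (by norm_num)]
        congr 1
        field_simp
        ring
      rw [hsplit]
      calc (R.card : ℝ) * (C2 * ((2 : ℝ) ^ (-(2 / q * (ρ : ℝ))) * (2 : ℝ) ^ (-((n : ℝ) / q))))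
          ≤ (B : ℝ) * (C2 * ((2 : ℝ) ^ (-(2 / q * (ρ : ℝ))) * (2 : ℝ) ^ (-((n : ℝ) / q)))) :=
            mul_le_mul_of_nonneg_right hRB (by positivity)
        _ = (B * C2 * (2 : ℝ) ^ (-(2 / q * (ρ : ℝ)))) * (2 : ℝ) ^ (-((n : ℝ) / q)) := by ring
        _ ≤ 1 / 2 * (2 : ℝ) ^ (-((n : ℝ) / q)) :=
            mul_le_mul_of_nonneg_right hb2 (by positivity)
  have hg : Cost r p q (fun x : TT (e + 2) => spk n s₀ y (pr x) + (-1) * ∑ i ∈ R, h i x)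
      (C1 * P + |(-1 : ℝ)| * P) (C1 * (2 : ℝ) ^ (-((n : ℝ) / q)) +
        |(-1 : ℝ)| * ((1 / 2) * (2 : ℝ) ^ (-((n : ℝ) / q)))) :=
    cs2 _ _ _ _ _ _ (by positivity) (by positivity) (by positivity) (by positivity)
      (hspk n s₀ y h3 hn) (cs1 _ _ _ (-1) hS)
  set l : ℝ := 1 / ((C1 + 1) * P) with hl
  have hl0 : 0 < l := by positivity
  have hf := cs1 _ _ _ l hg
  refine ⟨_, ⟨hf.1, ?_⟩, ?_, ?_⟩
  · obtain ⟨φ, hφc, hφm, hφn⟩ := hf.2.1
    refine ⟨φ, hφc.aestronglyMeasurable, ?_, hφm⟩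
    refine le_trans hφn ?_
    rw [← ENNReal.ofReal_one]
    refine ENNReal.ofReal_le_ofReal (le_of_eq ?_)
    rw [abs_of_pos hl0, hl, abs_neg, abs_one]
    field_simp
  · intro z
    have hz : spk n s₀ y (pr (X z)) + (-1) * ∑ i ∈ R, h i (X z) = 0 := by
      by_cases hcase : ∃ i ∈ R, z ∈ near Y n ρ (Y i) s₀
      · obtain ⟨i, hi, hzi⟩ := hcase
        have hsum : ∑ i' ∈ R, h i' (X z) = h i (X z) := by
          refine Finset.sum_eq_single i (fun i' hi' hne => ?_) (fun hcon => absurd hi hcon)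
          refine (hpt i' (hRN hi') (X z)).2 fun s hs hB => ?_
          have hz1 : z ∈ near Y n ((ρ : ℤ) - 1) (Y i') s :=
            Finset.mem_filter.mpr ⟨Finset.mem_univ _, hB⟩
          rw [((hG i' (hRN hi')).2.2.2.2.2 s hs).1] at hz1
          exact (Finset.disjoint_left.mp (hRd i' hi' i hi hne)) hz1 hzi
        rw [hsum, (hpt i (hRN hi) (X z)).1 fun s hs => ?_]
        · ring
        · have hz1 := hzi
          rw [← ((hG i (hRN hi)).2.2.2.2.2 s hs).2] at hz1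
          exact (Finset.mem_filter.mp hz1).2
      · have hsum : ∑ i' ∈ R, h i' (X z) = 0 := by
          refine Finset.sum_eq_zero fun i' hi' => ?_
          refine (hpt i' (hRN hi') (X z)).2 fun s hs hB => ?_
          have hz1 : z ∈ near Y n ((ρ : ℤ) - 1) (Y i') s :=
            Finset.mem_filter.mpr ⟨Finset.mem_univ _, hB⟩
          rw [((hG i' (hRN hi')).2.2.2.2.2 s hs).1] at hz1
          exact hcase ⟨i', hi', hz1⟩
        have hnB : ¬ Bx n (-1) s₀ y (pr (X z)) := by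
          intro hB
          obtain ⟨i, hi, hzi⟩ := hRc z (Finset.mem_filter.mpr ⟨Finset.mem_univ _, hB⟩)
          exact hcase ⟨i, hi, hzi⟩
        rw [hsum, ANA_van hBMP hGG n s₀ y _ h3 hn hnB]
        ring
    simp only [hz, mul_zero]
  · have hQ : (1 : ℝ≥0∞) ≤ ENNReal.ofReal q := by
      rw [← ENNReal.ofReal_one]
      exact ENNReal.ofReal_le_ofReal hqq
    set g : TT (e + 2) → ℝ := fun x => spk n s₀ y (pr x) + (-1) * ∑ i ∈ R, h i x with hgdef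
    set S : TT (e + 2) → ℝ := fun x => ∑ i ∈ R, h i x with hSdef
    have hgc : Continuous g := hg.1
    have hSc : Continuous S := hS.1
    have hsp : (fun x : TT (e + 2) => spk n s₀ y (pr x)) = g + S := by
      funext x
      simp only [hgdef, hSdef, Pi.add_apply]
      ring
    have k1 := hSPK q e n s₀ y hqq h3 hn
    rw [hsp] at k1
    have k2 : eLpNorm (g + S) (ENNReal.ofReal q) (haar (e + 2)) ≤
        eLpNorm g (ENNReal.ofReal q) (haar (e + 2)) +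
          eLpNorm S (ENNReal.ofReal q) (haar (e + 2)) :=
      eLpNorm_add_le hgc.aestronglyMeasurable hSc.aestronglyMeasurable hQ
    have k3 : eLpNorm S (ENNReal.ofReal q) (haar (e + 2)) ≤
        ENNReal.ofReal ((1 / 2) * (2 : ℝ) ^ (-((n : ℝ) / q))) := hS.2.2
    have k4 : ENNReal.ofReal ((1 / 2) * (2 : ℝ) ^ (-((n : ℝ) / q))) ≤
        eLpNorm g (ENNReal.ofReal q) (haar (e + 2)) := by
      have hle := le_trans k1 (le_trans k2 (add_le_add_right k3 _))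
      rw [← tsub_le_iff_right, ← ENNReal.ofReal_sub _ (by positivity)] at hle
      refine le_trans (le_of_eq ?_) hle
      congr 1
      ring
    have k5 : eLpNorm (fun x => l * g x) (ENNReal.ofReal q) (haar (e + 2)) =
        ENNReal.ofReal l * eLpNorm g (ENNReal.ofReal q) (haar (e + 2)) := by
      have : (fun x => l * g x) = l • g := by
        funext x
        simp [smul_eq_mul]
      rw [this, eLpNorm_const_smul, Real.enorm_eq_ofReal hl0.le]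
    rw [k5]
    refine le_trans (le_of_eq ?_) (mul_le_mul_right k4 _)
    rw [← ENNReal.ofReal_mul hl0.le]
    congr 1
    have hexp : (2 : ℝ) ^ (-((n : ℝ) * (r - 1 / p + 1 / q))) =
        P⁻¹ * (2 : ℝ) ^ (-((n : ℝ) / q)) := by
      rw [hP, ← Real.rpow_neg (by norm_num), ← Real.rpow_add (by norm_num)]
      congr 1
      ring
    rw [hexp, hl]
    field_simp

end Pool.Agent.Helper37.SN
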