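import Pool.Agent.Helper37.SN.Stmts

set_option autoImplicit false

namespace Pool.Agent.Helper37.SN

open MeasureTheory Finset
open scoped ENNReal Classical

theorem CST_prob (d : ℕ) : IsProbabilityMeasure (haar d) := by
  unfold haar haar1
  infer_instance

theorem CST_cont {d : ℕ} (k : Fin d → ℤ) :
    Continuous (fun x : TT d => (∏ j, (fourier (-(k j)) (x j) : ℂ))) :=
  continuous_finsetProd _ fun j _ => (map_continuous (fourier (-(k j)))).comp (continuous_apply j)

theorem CST_int {d : ℕ} (k : Fin d → ℤ) {f : TT d → ℝ} (hf : Continuous f) :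
    Integrable (fun x : TT d => (∏ j, (fourier (-(k j)) (x j) : ℂ)) * ((f x : ℝ) : ℂ)) (haar d) := by
  have := CST_prob d
  exact ((CST_cont k).mul (Complex.continuous_ofReal.comp hf)).integrable_of_hasCompactSupport
    (HasCompactSupport.of_compactSpace _)

theorem CST_mul {d : ℕ} (k : Fin d → ℤ) (l : ℝ) (f : TT d → ℝ) :
    mc (fun x => l * f x) k = (l : ℂ) * mc f k := by
  unfold mc
  rw [← integral_const_mul]
  congr 1
  funext x
  push_cast
  ring

theorem CST_add {d : ℕ} (k : Fin d → ℤ) {f g : TT d → ℝ} (hf : Continuous f)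
    (hg : Continuous g) : mc (fun x => f x + g x) k = mc f k + mc g k := by
  unfold mc
  rw [← integral_add (CST_int k hf) (CST_int k hg)]
  congr 1
  funext x
  push_cast
  ring

theorem CST_zero {d : ℕ} (k : Fin d → ℤ) : mc (fun _ : TT d => (0 : ℝ)) k = 0 := by
  unfold mc
  simp

theorem CST_c1 (r p q : ℝ) (d : ℕ) (F : TT d → ℝ) (c b l : ℝ) (h : Cost r p q F c b) :
    Cost r p q (fun x => l * F x) (|l| * c) (|l| * b) := by
  obtain ⟨hc, ⟨φ, hφc, hφm, hφn⟩, hq⟩ := h
  have key : ∀ (f : TT d → ℝ) (s : ℝ≥0∞) (t : ℝ), eLpNorm f s (haar d) ≤ ENNReal.ofReal t →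
      eLpNorm (fun x => l * f x) s (haar d) ≤ ENNReal.ofReal (|l| * t) := by
    intro f s t ht
    have h1 : (fun x => l * f x) = l • f := by
      funext x
      simp [smul_eq_mul]
    rw [h1, eLpNorm_const_smul, ENNReal.ofReal_mul (abs_nonneg l), ← Real.enorm_eq_ofReal_abs]
    gcongr
  refine ⟨continuous_const.mul hc, ⟨fun x => l * φ x, continuous_const.mul hφc, fun k => ?_,
    key _ _ _ hφn⟩, key _ _ _ hq⟩
  rw [CST_mul, CST_mul, hφm]
  ring

theorem CST_c2 (r p q : ℝ) (d : ℕ) (hp : 1 ≤ p) (hq : 1 ≤ q) (F F' : TT d → ℝ)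
    (c b c' b' : ℝ) (hc0 : 0 ≤ c) (hb0 : 0 ≤ b) (hc0' : 0 ≤ c') (hb0' : 0 ≤ b')
    (h : Cost r p q F c b) (h' : Cost r p q F' c' b') :
    Cost r p q (fun x => F x + F' x) (c + c') (b + b') := by
  obtain ⟨hc, ⟨φ, hφc, hφm, hφn⟩, hn⟩ := h
  obtain ⟨hc', ⟨φ', hφc', hφm', hφn'⟩, hn'⟩ := h'
  have key : ∀ (f f' : TT d → ℝ) (s : ℝ) (t t' : ℝ), 1 ≤ s → 0 ≤ t → 0 ≤ t' → Continuous f →
      Continuous f' → eLpNorm f (ENNReal.ofReal s) (haar d) ≤ ENNReal.ofReal t →
      eLpNorm f' (ENNReal.ofReal s) (haar d) ≤ ENNReal.ofReal t' →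
      eLpNorm (fun x => f x + f' x) (ENNReal.ofReal s) (haar d) ≤ ENNReal.ofReal (t + t') := by
    intro f f' s t t' hs ht ht' hf hf' h1 h2
    rw [ENNReal.ofReal_add ht ht']
    have hS : (1 : ℝ≥0∞) ≤ ENNReal.ofReal s := by
      rw [← ENNReal.ofReal_one]
      exact ENNReal.ofReal_le_ofReal hs
    exact le_trans (eLpNorm_add_le hf.aestronglyMeasurable hf'.aestronglyMeasurable hS)
      (add_le_add h1 h2)
  refine ⟨hc.add hc', ⟨fun x => φ x + φ' x, hφc.add hφc', fun k => ?_,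
    key _ _ _ _ _ hp hc0 hc0' hφc hφc' hφn hφn'⟩, key _ _ _ _ _ hq hb0 hb0' hc hc' hn hn'⟩
  rw [CST_add k hc hc', CST_add k hφc hφc', hφm, hφm']
  ring

theorem st_CST : ST_CST := by
  intro r p q d hp hq
  refine ⟨fun F c b l h => CST_c1 r p q d F c b l h, fun F F' c b c' b' h1 h2 h3 h4 h5 h6 =>
    CST_c2 r p q d hp hq F F' c b c' b' h1 h2 h3 h4 h5 h6, ?_, ?_⟩
  · intro ι S F c b
    induction S using Finset.induction_on with
    | empty =>
      intro _ _ _
      simp only [Finset.sum_empty]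
      refine ⟨continuous_const, ⟨fun _ => 0, continuous_const, fun k => ?_, ?_⟩, ?_⟩
      · rw [CST_zero, mul_zero]
      · simp
      · simp
    | insert a S ha ih =>
      intro hc hb hF
      simp only [Finset.sum_insert ha]
      refine CST_c2 r p q d hp hq _ _ _ _ _ _ (hc a (Finset.mem_insert_self _ _))
        (hb a (Finset.mem_insert_self _ _))
        (Finset.sum_nonneg fun i hi => hc i (Finset.mem_insert_of_mem hi))
        (Finset.sum_nonneg fun i hi => hb i (Finset.mem_insert_of_mem hi))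
        (hF a (Finset.mem_insert_self _ _)) ?_
      exact ih (fun i hi => hc i (Finset.mem_insert_of_mem hi))
        (fun i hi => hb i (Finset.mem_insert_of_mem hi))
        (fun i hi => hF i (Finset.mem_insert_of_mem hi))
  · rintro F c b c' b' h1 h2 ⟨hc, ⟨φ, hφc, hφm, hφn⟩, hn⟩
    exact ⟨hc, ⟨φ, hφc, hφm, le_trans hφn (ENNReal.ofReal_le_ofReal h1)⟩,
      le_trans hn (ENNReal.ofReal_le_ofReal h2)⟩

end Pool.Agent.Helper37.SN
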