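import Pool.Agent.Helper37.SN.Stmts

set_option autoImplicit false

namespace Pool.Agent.Helper37.SN

open MeasureTheory Finset
open scoped ENNReal Classical

theorem SPA_one (hBLK : ST_BLK) (A : Finset ℤ) (n j t u : ℕ) (hu : 1 ≤ u)
    (hA : ∀ s ∈ A, 0 ≤ s ∧ s ≤ n) :
    (A.filter (fun s : ℤ =>
      (A.filter (fun x : ℤ => s + (j : ℤ) ≤ x ∧ x ≤ s + (u : ℤ))).card < t)).card ≤
      (t + j) * ((n + 1) / u + 1) := by
  refine hBLK _ n u (t + j) hu (fun s hs => hA s (Finset.mem_filter.mp hs).1) (fun s hs => ?_)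
  have hs2 := (Finset.mem_filter.mp hs).2
  refine le_trans (Finset.card_le_card (t := A.filter (fun x : ℤ => s + (j : ℤ) ≤ x ∧
    x ≤ s + (u : ℤ)) ∪ Finset.Ico s (s + j)) ?_) ?_
  · intro x hx
    rw [Finset.mem_filter] at hx
    obtain ⟨h1, h2, h3⟩ := hx
    have h4 := (Finset.mem_filter.mp h1).1
    rw [Finset.mem_union, Finset.mem_filter, Finset.mem_Ico]
    by_cases hc : s + (j : ℤ) ≤ x
    · exact Or.inl ⟨h4, hc, by omega⟩
    · exact Or.inr ⟨h2, by omega⟩
  · refine le_trans (Finset.card_union_le _ _) ?_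
    rw [Int.card_Ico]
    omega

theorem st_SPA (hBLK : ST_BLK) : ST_SPA := by
  intro A n j t u hu hA
  rw [Finset.filter_or]
  refine le_trans (Finset.card_union_le _ _) ?_
  have h1 := SPA_one hBLK A n j t u hu hA
  have hinj : Function.Injective (fun s : ℤ => (n : ℤ) - s) := fun a b h => by
    simp only at h
    omega
  have h2 := SPA_one hBLK (A.image (fun s : ℤ => (n : ℤ) - s)) n j t u hu (by
    intro s hs
    obtain ⟨a, ha, rfl⟩ := Finset.mem_image.mp hs
    have := hA a ha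
    omega)
  have h3 : (A.filter (fun s : ℤ =>
      (A.filter (fun x : ℤ => s - (u : ℤ) ≤ x ∧ x ≤ s - (j : ℤ))).card < t)).card ≤
      ((A.image (fun s : ℤ => (n : ℤ) - s)).filter (fun s : ℤ =>
      ((A.image (fun s : ℤ => (n : ℤ) - s)).filter (fun x : ℤ => s + (j : ℤ) ≤ x ∧
        x ≤ s + (u : ℤ))).card < t)).card := by
    rw [← Finset.card_image_of_injective _ hinj]
    refine Finset.card_le_card fun y hy => ?_
    obtain ⟨s, hs, rfl⟩ := Finset.mem_image.mp hy
    obtain ⟨hsA, hs2⟩ := Finset.mem_filter.mp hs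
    refine Finset.mem_filter.mpr ⟨Finset.mem_image_of_mem _ hsA, ?_⟩
    refine lt_of_le_of_lt ?_ hs2
    rw [← Finset.card_image_of_injective (A.filter (fun x : ℤ => s - (u : ℤ) ≤ x ∧
      x ≤ s - (j : ℤ))) hinj]
    refine Finset.card_le_card fun x hx => ?_
    obtain ⟨hx1, hx2, hx3⟩ := Finset.mem_filter.mp hx
    obtain ⟨a, ha, rfl⟩ := Finset.mem_image.mp hx1
    refine Finset.mem_image_of_mem _ (Finset.mem_filter.mpr ⟨ha, ?_, ?_⟩)
    · omega
    · omega
  have h4 : 2 * (t + j) * ((n + 1) / u + 1) =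
      (t + j) * ((n + 1) / u + 1) + (t + j) * ((n + 1) / u + 1) := by ring
  rw [h4]
  exact add_le_add h1 (le_trans h3 h2)

end Pool.Agent.Helper37.SN
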